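import Pool.Agent.H438R3.PA.Main

/-!
# The number of isomorphism types of finitely generated projective algebras of plane sets
-/

namespace Pool.Agent.Results.MP_71be7b_lc.Continuum

open Pool.Agent.H438R3.PA Cardinal

/-- For each `k ≥ 1` there are exactly continuum many isomorphism types of projective algebras
generated by `k` subsets of the plane. -/
theorem result (k : ℕ) (hk : 1 ≤ k) : #(Quotient (isoSetoid k)) = 𝔠 :=
  number k hk

end Pool.Agent.Results.MP_71be7b_lc.Continuum
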